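import Pool.Agent.PST.StmtsDR

open scoped BigOperators PowerSeries

noncomputable section

namespace Pool.Agent.PST.H61

open Pool.Agent.PFC (tw IsTv)
open Pool.Agent.PFD.D2 (Cdv FibG)
open Pool.Agent.PFD.D2b (FrR)
open Pool.Agent.PSS
open Pool.Agent.PSS.S2 (PrD Nh Cn CV)
open Pool.Agent.PST

theorem avx : AvxStmt := by
  classical
  intro ℓ _ F V E _ _ _ _ _ _ φ Q r la χ xx' hE hQ hadd hlaφ hmul hone hsup hdual
  have hcard : ((Nat.card E : ℕ) : F) ≠ 0 := by
    intro h
    exact hE ((CharP.cast_eq_zero_iff F ℓ _).1 h)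
  have hla1 : ∀ n, la n 1 = 0 := by
    intro n
    have h := hadd n 1 1
    rw [mul_one] at h
    have h2 : la n 1 + 0 = la n 1 + la n 1 := by rw [add_zero]; exact h
    exact (add_left_cancel h2).symm
  set x1 : Fin r → V → F := fun l v => xx' l v - (if v = 1 then ∑ u, xx' l u else 0) with hx1
  have hx1s : ∀ l v, v ∉ Q → x1 l v = 0 := by
    intro l v hv
    have h1 : v ≠ 1 := by
      rintro rfl
      exact hv Q.one_mem
    simp [hx1, hsup l v hv, h1]
  have hx1z : ∀ l, ∑ v, x1 l v = 0 := by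
    intro l
    simp [hx1, Finset.sum_sub_distrib]
  have hx1d : ∀ l n, ∑ v, x1 l v * la n v = if l = n then 1 else 0 := by
    intro l n
    rw [← hdual l n]
    have h1 : ∀ v, x1 l v * la n v = xx' l v * la n v := by
      intro v
      by_cases hv : v = 1
      · subst hv
        simp [hx1, hla1]
      · simp [hx1, hv]
    exact Finset.sum_congr rfl (fun v _ => h1 v)
  have hsc : ∀ (e : E) (g : V → F), ∑ v, g (φ e v) = ∑ v, g v :=
    fun e g => Equiv.sum_comp (φ e).toEquiv g
  refine ⟨fun l v => ((Nat.card E : ℕ) : F)⁻¹ * ∑ e, χ l e * x1 l (φ e v), ?_, ?_, ?_, ?_⟩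
  · intro l v hv
    have h1 : ∀ e : E, χ l e * x1 l (φ e v) = 0 := by
      intro e
      rw [hx1s l (φ e v), mul_zero]
      intro hmem
      apply hv
      have h2 := hQ e⁻¹ (φ e v) hmem
      have h3 : φ e⁻¹ (φ e v) = v := by
        rw [map_inv]
        exact (φ e).symm_apply_apply v
      rwa [h3] at h2
    simp [h1]
  · intro l
    rw [← Finset.mul_sum, Finset.sum_comm]
    have h1 : ∀ e : E, ∑ v, χ l e * x1 l (φ e v) = 0 := by
      intro e
      rw [← Finset.mul_sum, hsc e (fun v => x1 l v), hx1z, mul_zero]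
    simp [h1]
  · intro l n
    have h1 : ∀ v, (((Nat.card E : ℕ) : F)⁻¹ * ∑ e, χ l e * x1 l (φ e v)) * la n v =
        ((Nat.card E : ℕ) : F)⁻¹ * ∑ e, χ l e * χ n e⁻¹ * (x1 l (φ e v) * la n (φ e v)) := by
      intro v
      rw [mul_assoc, Finset.sum_mul]
      congr 1
      refine Finset.sum_congr rfl ?_
      intro e _
      have h2 := hlaφ n e⁻¹ (φ e v)
      have h3 : φ e⁻¹ (φ e v) = v := by
        rw [map_inv]
        exact (φ e).symm_apply_apply v
      rw [h3] at h2
      rw [h2]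
      ring
    simp_rw [h1]
    rw [← Finset.mul_sum, Finset.sum_comm]
    have h4 : ∀ e : E, ∑ v, χ l e * χ n e⁻¹ * (x1 l (φ e v) * la n (φ e v)) =
        χ l e * χ n e⁻¹ * (if l = n then 1 else 0) := by
      intro e
      rw [← Finset.mul_sum, hsc e (fun v => x1 l v * la n v), hx1d]
    simp_rw [h4]
    by_cases hln : l = n
    · subst hln
      have h5 : ∀ e : E, χ l e * χ l e⁻¹ * (if l = l then (1 : F) else 0) = 1 := by
        intro e
        rw [if_pos rfl, mul_one, ← hmul, mul_inv_cancel, hone]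
      rw [Finset.sum_congr rfl (fun e _ => h5 e), if_pos rfl, Finset.sum_const, Finset.card_univ, ← Nat.card_eq_fintype_card, nsmul_eq_mul,
        mul_one]
      exact inv_mul_cancel₀ hcard
    · simp [hln]
  · intro l f v
    show χ l f * (((Nat.card E : ℕ) : F)⁻¹ * ∑ e, χ l e * x1 l (φ e (φ f v))) = _
    rw [mul_left_comm, Finset.mul_sum]
    congr 1
    rw [← Equiv.sum_comp (Equiv.mulRight f) (fun e => χ l e * x1 l (φ e v))]
    refine Finset.sum_congr rfl ?_
    intro e _
    simp only [Equiv.coe_mulRight]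
    rw [hmul, map_mul, MulAut.mul_apply]
    ring

end Pool.Agent.PST.H61
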