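import Pool.Agent.PST.StmtsDR

namespace Pool.Agent.PST.H61

open Pool.Agent.PST

theorem tin : TinStmt := by
  intro F _ _ r
  have hinf : Infinite F := IsAlgClosed.instInfinite
  have h1 : ({0}ᶜ : Set F).Infinite := (Set.finite_singleton (0 : F)).infinite_compl
  obtain ⟨t, ht1, ht2⟩ := h1.exists_subset_card_eq r
  refine ⟨fun l => ((t.equivFinOfCardEq ht2).symm l : F), ?_, ?_⟩
  · intro l h0
    exact ht1 ((t.equivFinOfCardEq ht2).symm l).2 h0
  · intro a b hab
    exact (t.equivFinOfCardEq ht2).symm.injective (Subtype.ext hab)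

end Pool.Agent.PST.H61
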